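import Pool.Agent.H814.LR.MainG

set_option autoImplicit false
set_option linter.unusedSectionVars false

/-! # Long runs of composite values of quadratic polynomials (project LR, helper814) -/

namespace Pool.Agent.H814.LR

open Filter

theorem runs_quad (a b c : ℤ) (hΔ : ¬ IsSquare (b ^ 2 - 4 * a * c)) : ∃ κ : ℝ, 0 < κ ∧ ∃ N₀ : ℕ,
    ∀ N : ℕ, N₀ ≤ N → ∀ M : ℕ, N ≤ M → ∃ m : ℕ, M < m ∧ m ≤ M + N ∧ ∀ n : ℕ, m < n →
      (n : ℝ) ≤ m + κ * Real.log N * Real.log (Real.log N) →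
      ¬ Prime (a * (n : ℤ) ^ 2 + b * n + c) ∧
        ∃ p : ℕ, p.Prime ∧ (p : ℝ) ≤ (N : ℝ) ^ (1 / 10 : ℝ) ∧ (p : ℤ) ∣ a * (n : ℤ) ^ 2 + b * n + c := by
  have ha : a ≠ 0 := by
    rintro rfl
    apply hΔ
    exact ⟨b, by ring⟩
  obtain ⟨ε, hε1, hεa⟩ : ∃ ε : ℤ, ε * ε = 1 ∧ ε * a = |a| := by
    rcases le_total 0 a with h | h
    · exact ⟨1, by norm_num, by rw [abs_of_nonneg h, one_mul]⟩
    · exact ⟨-1, by norm_num, by rw [abs_of_nonpos h]; ring⟩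
  obtain ⟨t, ht⟩ : ∃ t : ℕ, t = 2 * a.natAbs := ⟨_, rfl⟩
  have ht0 : 0 < t := by
    have := Int.natAbs_pos.2 ha
    omega
  have htZ : (t : ℤ) = 2 * (ε * a) := by
    rw [ht, hεa]
    push_cast
    rfl
  obtain ⟨κ, hκ, Z₀, h⟩ := runsG (b ^ 2 - 4 * a * c) hΔ t ht0 (ε * b)
  refine ⟨κ, hκ, max (max ⌈Z₀⌉₊ 1) (b.natAbs + c.natAbs + 2), fun N hN M hM => ?_⟩
  obtain ⟨hN1, hN2⟩ := max_le_iff.1 hN
  obtain ⟨hN3, hN4⟩ := max_le_iff.1 hN1
  have hZ : Z₀ ≤ N := (Nat.le_ceil Z₀).trans (by exact_mod_cast hN3)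
  obtain ⟨x, hx1, hx2, ⟨k, hk⟩, hx3⟩ := h N hZ (t * M + ε * b)
  -- `x = t k + ε b`
  have hx : x = t * k + ε * b := by linarith
  have htpos : (0 : ℤ) < t := by exact_mod_cast ht0
  have hk1 : (M : ℤ) < k := by
    have h1 : (t : ℤ) * M < t * k := by linarith
    exact lt_of_mul_lt_mul_left h1 htpos.le
  have hk2 : k ≤ M + N := by
    have h1 : (t : ℤ) * k ≤ t * M + N := by linarith
    have h2 : (N : ℤ) ≤ t * N := by
      have : (0 : ℤ) ≤ N := Int.natCast_nonneg _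
      nlinarith
    have h3 : (t : ℤ) * k ≤ t * (M + N) := by linarith
    exact le_of_mul_le_mul_left h3 htpos
  obtain ⟨m, rfl⟩ := Int.eq_ofNat_of_zero_le (show 0 ≤ k by omega)
  refine ⟨m, by exact_mod_cast hk1, by exact_mod_cast hk2, fun n hn1 hn2 => ?_⟩
  obtain ⟨p, hp1, hpt, hp2, hp3⟩ := hx3 ((n : ℤ) - m) (by omega) (by
    push_cast
    linarith)
  have e : (x + t * ((n : ℤ) - m)) ^ 2 - (b ^ 2 - 4 * a * c) =
      (4 * a) * (a * (n : ℤ) ^ 2 + b * n + c) := by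
    rw [hx, htZ]
    have e1 : 2 * (ε * a) * (m : ℤ) + ε * b + 2 * (ε * a) * ((n : ℤ) - m) = ε * (2 * a * n + b) := by ring
    rw [e1, mul_pow, sq ε, hε1]
    ring
  rw [e] at hp3
  have hpp : Prime (p : ℤ) := Nat.prime_iff_prime_int.1 hp1
  have hpa : ¬ (p : ℤ) ∣ 4 * a := by
    intro hd
    have h1 : p ∣ (4 * a).natAbs := Int.natCast_dvd.1 hd
    rw [Int.natAbs_mul] at h1
    have h4 : (4 : ℤ).natAbs = 2 * 2 := rfl
    rw [h4] at h1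
    have hapos := Int.natAbs_pos.2 ha
    rcases (hp1.dvd_mul).1 h1 with h2 | h2
    · rcases (hp1.dvd_mul).1 h2 with h3 | h3 <;>
      · have := Nat.le_of_dvd (by norm_num) h3
        omega
    · have := Nat.le_of_dvd hapos h2
      omega
  have hp4 : (p : ℤ) ∣ a * (n : ℤ) ^ 2 + b * n + c := (hpp.dvd_or_dvd hp3).resolve_left hpa
  refine ⟨?_, p, hp1, hp2, hp4⟩
  intro hprime
  have hNR : (1 : ℝ) ≤ N := by exact_mod_cast hN4
  have h1 : (N : ℝ) ^ (1 / 10 : ℝ) ≤ N := by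
    calc (N : ℝ) ^ (1 / 10 : ℝ) ≤ (N : ℝ) ^ (1 : ℝ) := Real.rpow_le_rpow_of_exponent_le hNR (by norm_num)
      _ = N := Real.rpow_one _
  have h2 : (p : ℝ) ≤ N := hp2.trans h1
  have h3 : p ≤ N := by exact_mod_cast h2
  have h4 : Associated (p : ℤ) (a * (n : ℤ) ^ 2 + b * n + c) := (hpp.dvd_prime_iff_associated hprime).1 hp4
  have h5 := Int.associated_iff_natAbs.1 h4
  have h6 : (N : ℤ) < n := by
    have hMm : M < m := by exact_mod_cast hk1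
    omega
  rw [Int.natAbs_natCast] at h5
  have h8 : ((p : ℕ) : ℤ) = |a * (n : ℤ) ^ 2 + b * n + c| := by rw [h5, Int.abs_eq_natAbs]
  -- the value is large
  have hbc : |b| + |c| + 2 ≤ (N : ℤ) := by
    rw [Int.abs_eq_natAbs, Int.abs_eq_natAbs]
    omega
  have ha1 : 1 ≤ |a| := Int.one_le_abs ha
  have hn0 : (0 : ℤ) ≤ n := Int.natCast_nonneg _
  have g1 : |a * (n : ℤ) ^ 2| ≤ |a * (n : ℤ) ^ 2 + b * n + c| + |b * (n : ℤ)| + |c| := by
    have e2 : a * (n : ℤ) ^ 2 = (a * (n : ℤ) ^ 2 + b * n + c) - b * n - c := by ring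
    calc |a * (n : ℤ) ^ 2| = |(a * (n : ℤ) ^ 2 + b * n + c) - b * n - c| := by rw [← e2]
      _ ≤ |(a * (n : ℤ) ^ 2 + b * n + c) - b * n| + |c| := abs_sub _ _
      _ ≤ _ := by
        have := abs_sub (a * (n : ℤ) ^ 2 + b * n + c) (b * n)
        linarith
  rw [abs_mul, abs_mul, abs_of_nonneg (show (0 : ℤ) ≤ (n : ℤ) ^ 2 by positivity), abs_of_nonneg hn0,
    ← h8] at g1
  have g2 : (n : ℤ) ^ 2 ≤ |a| * (n : ℤ) ^ 2 := by nlinarith [sq_nonneg (n : ℤ)]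
  have g3 : (0 : ℤ) ≤ |b| := abs_nonneg _
  have g4 : (0 : ℤ) ≤ |c| := abs_nonneg _
  have g5 : (p : ℤ) ≤ N := by exact_mod_cast h3
  have g6 : (|b| + |c| + 2) * (n : ℤ) ≤ (n : ℤ) * n := by
    apply mul_le_mul_of_nonneg_right _ hn0
    linarith
  nlinarith

end Pool.Agent.H814.LR
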