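import Pool.Agent.H814.LR.TupMain

set_option autoImplicit false
set_option linter.unusedSectionVars false

/-! # Long runs without simultaneous primes in linear forms, final form (project LR, helper814) -/

namespace Pool.Agent.H814.LR

open Filter

theorem tuples_nat {s : ℕ} (a b : Fin (s + 1) → ℤ) (ha : ∀ i, a i ≠ 0)
    (hab : ∀ i j, i ≠ j → a i * b j ≠ a j * b i) : ∃ κ : ℝ, 0 < κ ∧ ∃ N₀ : ℕ,
    ∀ N : ℕ, N₀ ≤ N → ∀ M : ℕ, N ≤ M → ∃ m : ℕ, M < m ∧ m ≤ M + N ∧ ∀ n : ℕ, m < n →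
      (n : ℝ) ≤ m + κ * Real.log N * Real.log (Real.log N) ^ (s + 1) →
      ∃ i, ¬ Prime (a i * (n : ℤ) + b i) ∧
        ∃ p : ℕ, p.Prime ∧ (p : ℝ) ≤ (N : ℝ) ^ (1 / 10 : ℝ) ∧ (p : ℤ) ∣ a i * (n : ℤ) + b i := by
  obtain ⟨κ, hκ, Z₀, h⟩ := tuples a b ha hab
  refine ⟨κ, hκ, max (max ⌈Z₀⌉₊ 4) (2 * ∑ i, (b i).natAbs), fun N hN M hM => ?_⟩
  obtain ⟨hN1, hN2⟩ := max_le_iff.1 hN
  obtain ⟨hN3, hN4⟩ := max_le_iff.1 hN1
  have hZ : Z₀ ≤ N := (Nat.le_ceil Z₀).trans (by exact_mod_cast hN3)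
  obtain ⟨x, hx1, hx2, hx3⟩ := h N hZ M
  obtain ⟨m, rfl⟩ := Int.eq_ofNat_of_zero_le (show 0 ≤ x by omega)
  refine ⟨m, by exact_mod_cast hx1, by exact_mod_cast hx2, fun n hn1 hn2 => ?_⟩
  obtain ⟨i, p, hp1, hp2, hp3⟩ := hx3 ((n : ℤ) - m) (by omega) (by
    push_cast
    linarith)
  have e : (m : ℤ) + ((n : ℤ) - m) = n := by ring
  rw [e] at hp3
  refine ⟨i, ?_, p, hp1, hp2, hp3⟩
  intro hprime
  have hNR : (4 : ℝ) ≤ N := by exact_mod_cast hN4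
  have hsq : Real.sqrt N * Real.sqrt N = N := Real.mul_self_sqrt (by linarith)
  have hs2 : 2 ≤ Real.sqrt N := by
    apply Real.le_sqrt_of_sq_le
    have h22 : (2 : ℝ) ^ 2 = 4 := by norm_num
    rw [h22]
    exact hNR
  have h1 : (N : ℝ) ^ (1 / 10 : ℝ) ≤ N / 2 := by
    calc (N : ℝ) ^ (1 / 10 : ℝ) ≤ (N : ℝ) ^ (1 / 2 : ℝ) :=
          Real.rpow_le_rpow_of_exponent_le (by linarith) (by norm_num)
      _ = Real.sqrt N := (Real.sqrt_eq_rpow _).symm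
      _ ≤ N / 2 := by nlinarith
  have h2 : 2 * (p : ℝ) ≤ N := by linarith
  have h3 : 2 * p ≤ N := by exact_mod_cast h2
  have hpp : Prime (p : ℤ) := Nat.prime_iff_prime_int.1 hp1
  have h4 : Associated (p : ℤ) (a i * (n : ℤ) + b i) := (hpp.dvd_prime_iff_associated hprime).1 hp3
  have h5 := Int.associated_iff_natAbs.1 h4
  have h6 : (N : ℤ) < n := by
    have hMm : M < m := by exact_mod_cast hx1
    omega
  rw [Int.natAbs_natCast] at h5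
  have h8 : ((p : ℕ) : ℤ) = |a i * (n : ℤ) + b i| := by rw [h5, Int.abs_eq_natAbs]
  have hb : (b i).natAbs ≤ ∑ i, (b i).natAbs :=
    Finset.single_le_sum (f := fun i => (b i).natAbs) (fun _ _ => Nat.zero_le _) (Finset.mem_univ i)
  have hbN : 2 * |b i| ≤ (N : ℤ) := by
    rw [Int.abs_eq_natAbs]
    omega
  have ha1 : 1 ≤ |a i| := Int.one_le_abs (ha i)
  have hn0 : (0 : ℤ) ≤ n := Int.natCast_nonneg _
  have g1 : |a i * (n : ℤ)| ≤ |a i * (n : ℤ) + b i| + |b i| := by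
    have e2 : a i * (n : ℤ) = (a i * (n : ℤ) + b i) - b i := by ring
    calc |a i * (n : ℤ)| = |(a i * (n : ℤ) + b i) - b i| := by rw [← e2]
      _ ≤ _ := abs_sub _ _
  rw [abs_mul, abs_of_nonneg hn0, ← h8] at g1
  have g2 : (n : ℤ) ≤ |a i| * n := by nlinarith
  have g5 : 2 * (p : ℤ) ≤ N := by exact_mod_cast h3
  linarith

end Pool.Agent.H814.LR
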