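import Pool.Agent.H814.LR.Sols

set_option autoImplicit false
set_option linter.unusedSectionVars false
set_option linter.unusedVariables false

/-! # The survivors of the small primes for `n ^ 2 - D` (project LR, helper814) -/

namespace Pool.Agent.H814.LR

open Finset

open scoped Classical

theorem card_shift (D : ℤ) (q : ℕ) [Fact q.Prime] (hq2 : q ≠ 2) (h : ℤ) :
    (((univ.filter (fun c : ZMod q => ¬ (c + (h : ZMod q)) ^ 2 = (D : ZMod q))).card : ℕ) : ℝ) =
      q - (1 + (jacobiSym D q : ℝ)) := by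
  have h1 : (univ.filter (fun c : ZMod q => (c + (h : ZMod q)) ^ 2 = (D : ZMod q))).card =
      (univ.filter (fun x : Fin 1 → ZMod q => (x 0 + (h : ZMod q)) ^ 2 = (D : ZMod q))).card := by
    refine Finset.card_bij' (fun c _ => fun _ => c) (fun x _ => x 0) ?_ ?_ ?_ ?_
    · intro c hc
      rw [mem_filter] at hc ⊢
      exact ⟨mem_univ _, hc.2⟩
    · intro x hx
      rw [mem_filter] at hx ⊢
      exact ⟨mem_univ _, hx.2⟩
    · intro c _
      rfl
    · intro x _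
      funext i
      have : i = 0 := Fin.fin_one_eq_zero i
      rw [this]
  have h2 := Finset.card_filter_add_card_filter_not (s := (univ : Finset (ZMod q)))
    (fun c : ZMod q => (c + (h : ZMod q)) ^ 2 = (D : ZMod q))
  rw [card_univ, ZMod.card, h1] at h2
  have h3 := card_roots D q hq2 h
  have h4 : (((univ.filter (fun x : Fin 1 → ZMod q => (x 0 + (h : ZMod q)) ^ 2 = (D : ZMod q))).card : ℕ) : ℝ) +
      (((univ.filter (fun c : ZMod q => ¬ (c + (h : ZMod q)) ^ 2 = (D : ZMod q))).card : ℕ) : ℝ) = q := by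
    exact_mod_cast h2
  linarith

/-- residue classes modulo the primes of `Ps` that leave few shifts alive -/
theorem greedy_res (D : ℤ) (T : Finset ℤ) (Ps : Finset ℕ) (hPs : ∀ p ∈ Ps, p.Prime ∧ p ≠ 2) :
    ∃ b : ℕ → ℤ, ((T.filter (fun h => ∀ p ∈ Ps, ¬ (p : ℤ) ∣ (b p + h) ^ 2 - D)).card : ℝ) ≤
      T.card * ∏ p ∈ Ps, (1 - (1 + (jacobiSym D p : ℝ)) / p) := by
  induction Ps using Finset.induction_on with
  | empty => exact ⟨0, by simp⟩
  | insert q Ps hq ih =>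
    obtain ⟨b, hb⟩ := ih (fun p hp => hPs p (mem_insert_of_mem hp))
    obtain ⟨hqp, hq2⟩ := hPs q (mem_insert_self _ _)
    haveI : Fact q.Prime := ⟨hqp⟩
    have hq0 : (0 : ℝ) < q := by exact_mod_cast hqp.pos
    obtain ⟨T', hT'⟩ : ∃ T' : Finset ℤ, T' = T.filter (fun h => ∀ p ∈ Ps, ¬ (p : ℤ) ∣ (b p + h) ^ 2 - D) :=
      ⟨_, rfl⟩
    rw [← hT'] at hb
    have hsum : ∑ c : ZMod q, ((T'.filter (fun h : ℤ => ¬ (c + (h : ZMod q)) ^ 2 = (D : ZMod q))).card : ℝ) =
        ∑ c : ZMod q, (T'.card : ℝ) * (1 - (1 + (jacobiSym D q : ℝ)) / q) := by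
      have e1 : ∑ c : ZMod q, ((T'.filter (fun h : ℤ => ¬ (c + (h : ZMod q)) ^ 2 = (D : ZMod q))).card : ℝ) =
          ∑ h ∈ T', (((univ.filter (fun c : ZMod q => ¬ (c + (h : ZMod q)) ^ 2 = (D : ZMod q))).card : ℕ) : ℝ) := by
        simp_rw [Finset.card_filter]
        push_cast
        exact Finset.sum_comm
      rw [e1, Finset.sum_congr rfl (fun h _ => card_shift D q hq2 h), sum_const, sum_const, card_univ,
        ZMod.card, nsmul_eq_mul, nsmul_eq_mul]
      field_simp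
    obtain ⟨c, -, hc⟩ := Finset.exists_le_of_sum_le (s := (univ : Finset (ZMod q)))
      ⟨0, mem_univ _⟩ hsum.le
    refine ⟨Function.update b q (c.val : ℤ), ?_⟩
    have h1 : T.filter (fun h => ∀ p ∈ insert q Ps, ¬ (p : ℤ) ∣ (Function.update b q (c.val : ℤ) p + h) ^ 2 - D) =
        T'.filter (fun h : ℤ => ¬ (c + (h : ZMod q)) ^ 2 = (D : ZMod q)) := by
      rw [hT', Finset.filter_filter]
      apply Finset.filter_congr
      intro h _
      have h2 : (¬ (q : ℤ) ∣ (Function.update b q (c.val : ℤ) q + h) ^ 2 - D) ↔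
          ¬ (c + (h : ZMod q)) ^ 2 = (D : ZMod q) := by
        rw [Function.update_self, ← ZMod.intCast_zmod_eq_zero_iff_dvd]
        push_cast
        rw [ZMod.natCast_zmod_val, sub_eq_zero]
      have h3 : ∀ p ∈ Ps, Function.update b q (c.val : ℤ) p = b p := by
        intro p hp
        apply Function.update_of_ne
        intro h
        rw [h] at hp
        exact hq hp
      rw [Finset.forall_mem_insert, h2]
      constructor
      · rintro ⟨h4, h5⟩
        refine ⟨fun p hp => ?_, h4⟩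
        have := h5 p hp
        rwa [h3 p hp] at this
      · rintro ⟨h4, h5⟩
        refine ⟨h5, fun p hp => ?_⟩
        rw [h3 p hp]
        exact h4 p hp
    rw [h1, Finset.prod_insert hq]
    have h5 : 0 ≤ 1 - (1 + (jacobiSym D q : ℝ)) / q := by
      have h6 := (abs_le.1 (jac_bound D q)).2
      have h7 : (2 : ℝ) ≤ q := by exact_mod_cast hqp.two_le
      have h8 : (1 + (jacobiSym D q : ℝ)) / q ≤ 1 := by
        rw [div_le_one hq0]
        linarith
      linarith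
    calc ((T'.filter (fun h : ℤ => ¬ (c + (h : ZMod q)) ^ 2 = (D : ZMod q))).card : ℝ)
        ≤ (T'.card : ℝ) * (1 - (1 + (jacobiSym D q : ℝ)) / q) := hc
      _ ≤ (T.card * ∏ p ∈ Ps, (1 - (1 + (jacobiSym D p : ℝ)) / p)) * (1 - (1 + (jacobiSym D q : ℝ)) / q) :=
          mul_le_mul_of_nonneg_right hb h5
      _ = _ := by ring

/-- the product over the primes up to `Y` -/
theorem prod_small (D : ℤ) (P : ℕ) (A : ℝ) (hA : ∀ Q : ℕ, P ≤ Q → |Pool.Agent.H300R2.EC.Sd D P Q| ≤ A) :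
    ∃ C : ℝ, 0 < C ∧ ∀ Y : ℕ, 3 ≤ Y → P ≤ Y →
      ∏ p ∈ (Ioc P Y).filter (fun p : ℕ => p.Prime ∧ p ≠ 2), (1 - (1 + (jacobiSym D p : ℝ)) / p) ≤
        C / Real.log Y := by
  obtain ⟨C, hC⟩ := Pool.Agent.Helper256.KM.mertens_inv
  refine ⟨Real.exp (C + P + 1 + A), Real.exp_pos _, fun Y hY hPY => ?_⟩
  have hYR : (3 : ℝ) ≤ Y := by exact_mod_cast hY
  have hlogY : 0 < Real.log Y := Real.log_pos (by linarith)
  obtain ⟨F, hF⟩ : ∃ F : Finset ℕ, F = (Ioc P Y).filter (fun p : ℕ => p.Prime ∧ p ≠ 2) := ⟨_, rfl⟩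
  rw [← hF]
  have hFp : ∀ p ∈ F, p.Prime := fun p hp => by
    rw [hF, mem_filter] at hp
    exact hp.2.1
  have h1 : ∏ p ∈ F, (1 - (1 + (jacobiSym D p : ℝ)) / p) ≤ Real.exp (-∑ p ∈ F, (1 + (jacobiSym D p : ℝ)) / p) := by
    rw [← Finset.sum_neg_distrib, Real.exp_sum]
    refine Finset.prod_le_prod (fun p hp => ?_) (fun p hp => ?_)
    · have h6 := (abs_le.1 (jac_bound D p)).2
      have h7 : (2 : ℝ) ≤ p := by exact_mod_cast (hFp p hp).two_le
      have h8 : (1 + (jacobiSym D p : ℝ)) / p ≤ 1 := by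
        rw [div_le_one (by linarith)]
        linarith
      linarith
    · have := Real.add_one_le_exp (-((1 + (jacobiSym D p : ℝ)) / p))
      linarith
  have h2 : ∑ p ∈ F, (1 + (jacobiSym D p : ℝ)) / p =
      ∑ p ∈ F, (1 : ℝ) / p + Pool.Agent.H300R2.EC.Sd D P Y := by
    unfold Pool.Agent.H300R2.EC.Sd
    rw [← hF, ← Finset.sum_add_distrib]
    refine Finset.sum_congr rfl fun p _ => ?_
    ring
  have h3 := (abs_le.1 (hA Y hPY)).1
  have h4 := (abs_le.1 (hC Y hY)).1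
  have h5 : ∑ p ∈ (Icc 1 Y).filter Nat.Prime, (1 : ℝ) / p ≤ ∑ p ∈ F, (1 : ℝ) / p + (P + 1) := by
    have e1 : (Icc 1 Y).filter Nat.Prime ⊆ F ∪ Icc 1 P ∪ {2} := by
      intro p hp
      rw [mem_filter, mem_Icc] at hp
      simp only [hF, mem_union, mem_filter, mem_Ioc, mem_Icc, mem_singleton]
      by_cases h : p ≤ P
      · exact Or.inl (Or.inr ⟨hp.1.1, h⟩)
      · by_cases h2 : p = 2
        · exact Or.inr h2
        · exact Or.inl (Or.inl ⟨⟨by omega, hp.1.2⟩, hp.2, h2⟩)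
    have hnn : ∀ p : ℕ, (0 : ℝ) ≤ 1 / p := fun p => by positivity
    have e2 : ∑ p ∈ (Icc 1 Y).filter Nat.Prime, (1 : ℝ) / p ≤ ∑ p ∈ F ∪ Icc 1 P ∪ {2}, (1 : ℝ) / p :=
      Finset.sum_le_sum_of_subset_of_nonneg e1 (fun p _ _ => hnn p)
    have e3 : ∑ p ∈ F ∪ Icc 1 P ∪ {2}, (1 : ℝ) / p ≤
        ∑ p ∈ F ∪ Icc 1 P, (1 : ℝ) / p + ∑ p ∈ ({2} : Finset ℕ), (1 : ℝ) / p := by
      rw [← Finset.sum_union_inter]
      have := Finset.sum_nonneg (s := (F ∪ Icc 1 P) ∩ {2}) (fun p _ => hnn p)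
      linarith
    have e4 : ∑ p ∈ F ∪ Icc 1 P, (1 : ℝ) / p ≤ ∑ p ∈ F, (1 : ℝ) / p + ∑ p ∈ Icc 1 P, (1 : ℝ) / p := by
      rw [← Finset.sum_union_inter]
      have := Finset.sum_nonneg (s := F ∩ Icc 1 P) (fun p _ => hnn p)
      linarith
    have e5 : ∑ p ∈ Icc 1 P, (1 : ℝ) / p ≤ P := by
      have : ∑ p ∈ Icc 1 P, (1 : ℝ) / p ≤ ∑ p ∈ Icc 1 P, (1 : ℝ) := by
        refine Finset.sum_le_sum fun p hp => ?_
        rw [mem_Icc] at hp
        have : (1 : ℝ) ≤ p := by exact_mod_cast hp.1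
        rw [div_le_one (by linarith)]
        exact this
      simpa using this
    have e6 : ∑ p ∈ ({2} : Finset ℕ), (1 : ℝ) / p ≤ 1 := by
      rw [Finset.sum_singleton]
      norm_num
    linarith
  refine h1.trans ?_
  rw [h2]
  have h6 : Real.exp (C + P + 1 + A) / Real.log Y = Real.exp (C + P + 1 + A - Real.log (Real.log Y)) := by
    rw [Real.exp_sub, Real.exp_log hlogY]
  rw [h6]
  apply Real.exp_le_exp.2
  linarith

end Pool.Agent.H814.LR
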