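import Pool.Agent.H814.LR.Sols

set_option autoImplicit false
set_option linter.unusedSectionVars false
set_option linter.unusedVariables false

/-! # The sums of the densities of the colours (project LR, helper814) -/

namespace Pool.Agent.H814.LR

open Finset Filter
open Pool.Agent.H378R2.QG (PZ Tc)
open Pool.Agent.H300R2.EC (Sd)

open scoped Classical

theorem tc_low (D : ℤ) (hD : ¬ IsSquare D) (P1 : ℕ)
    (hP1 : ∀ P : ℕ, P1 ≤ P → ∀ Q : ℕ, P ≤ Q → |Sd D P Q| ≤ 1) (Y : ℝ) (hY2 : 2 ≤ Y) (hYP : (P1 : ℝ) ≤ Y)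
    (S : Finset ℤ) (hSY : ∀ h ∈ S, ∀ h' ∈ S, |((h - h' : ℤ) : ℝ)| ≤ Y)
    (hS4 : ∀ h ∈ S, ∀ h' ∈ S, |(((h - h') ^ 2 - 4 * D : ℤ) : ℝ)| ≤ Y ^ 2)
    (hcard : 2 * (S.card : ℝ) ≤ Y) (w : ℝ) (hw : Y ≤ w) (k : {h // h ∈ S}) :
    -2 ≤ Tc (fun p => (p : ℝ) * Pool.Agent.Y837.SV.dens 1 (col D S) p k - 1) Y w := by
  obtain ⟨B, hB⟩ : ∃ B : Finset ℕ, B = (PZ Y w).filter
      (fun p : ℕ => ∃ k' ∈ S, (p : ℤ) ∣ ((k : ℤ) - k') ^ 2 - 4 * D) := ⟨_, rfl⟩
  have hPZ : ∀ p ∈ PZ Y w, p.Prime ∧ Y < (p : ℝ) := by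
    intro p hp
    unfold PZ at hp
    exact (mem_filter.1 hp).2
  have hBc : B.card ≤ S.card := by
    refine bad_card D hD S (k : ℤ) B Y (by linarith) (fun p hp => ?_) (fun k' hk' => hS4 _ k.2 _ hk')
    rw [hB, mem_filter] at hp
    exact ⟨(hPZ p hp.1).1, (hPZ p hp.1).2, hp.2⟩
  have hterm : ∀ p ∈ PZ Y w, (jacobiSym D p : ℝ) / p - (if p ∈ B then 2 / Y else 0) ≤
      ((p : ℝ) * Pool.Agent.Y837.SV.dens 1 (col D S) p k - 1) / p := by
    intro p hp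
    obtain ⟨hpp, hpY⟩ := hPZ p hp
    haveI : Fact p.Prime := ⟨hpp⟩
    have hp0 : (0 : ℝ) < p := by exact_mod_cast hpp.pos
    have hp2 : p ≠ 2 := by
      rintro rfl
      push_cast at hpY
      linarith
    by_cases hpB : p ∈ B
    · rw [if_pos hpB]
      have h1 := (abs_le.1 (jac_bound D p)).2
      have h2 := Pool.Agent.Y837.SV.dens_nonneg 1 (col D S) p k
      have h3 : (jacobiSym D p : ℝ) / p ≤ 1 / p := div_le_div_of_nonneg_right h1 hp0.le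
      have h4 : 2 / (p : ℝ) ≤ 2 / Y := div_le_div_of_nonneg_left (by norm_num) (by linarith) hpY.le
      have h5 : -(1 / (p : ℝ)) ≤ ((p : ℝ) * Pool.Agent.Y837.SV.dens 1 (col D S) p k - 1) / p := by
        rw [← neg_div]
        apply div_le_div_of_nonneg_right _ hp0.le
        have : 0 ≤ (p : ℝ) * Pool.Agent.Y837.SV.dens 1 (col D S) p k := by positivity
        linarith
      have h6 : 2 / (p : ℝ) = 1 / p + 1 / p := by ring
      linarith
    · rw [if_neg hpB, sub_zero]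
      apply div_le_div_of_nonneg_right _ hp0.le
      have h1 := dens_low D S p hp2 k (fun k' hk' hne hd => by
        have h2 := Int.le_of_dvd (abs_pos.2 (sub_ne_zero.2 (Ne.symm hne))) ((dvd_abs _ _).2 hd)
        have h3 := hSY _ k.2 _ hk'
        have h4 : (p : ℝ) ≤ |(((k : ℤ) - k' : ℤ) : ℝ)| := by exact_mod_cast h2
        linarith) (fun k' hk' hne hd => hpB (by
        rw [hB, mem_filter]
        exact ⟨hp, k', hk', hd⟩))
      linarith
  have hsum := Finset.sum_le_sum hterm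
  have hS1 : ∑ p ∈ PZ Y w, (jacobiSym D p : ℝ) / p = Sd D ⌊Y⌋₊ ⌊w⌋₊ := by
    unfold Sd PZ
    apply Finset.sum_congr _ (fun _ _ => rfl)
    ext p
    rw [mem_filter, mem_filter, mem_Icc, mem_Ioc]
    have h1 : Y < (p : ℝ) ↔ ⌊Y⌋₊ < p := (Nat.floor_lt (by linarith)).symm
    rw [h1]
    constructor
    · rintro ⟨⟨_, h3⟩, h4, h5⟩
      refine ⟨⟨h5, h3⟩, h4, ?_⟩
      rintro rfl
      have := h1.2 h5
      push_cast at this
      linarith
    · rintro ⟨⟨h2, h3⟩, h4, h5⟩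
      exact ⟨⟨h4.one_lt.le, h3⟩, h4, h2⟩
  have hS2 : ∑ p ∈ PZ Y w, (if p ∈ B then 2 / Y else 0) ≤ 1 := by
    rw [← Finset.sum_filter, sum_const, nsmul_eq_mul]
    have h1 : (PZ Y w).filter (fun p => p ∈ B) ⊆ B := by
      intro p hp
      exact (mem_filter.1 hp).2
    have h2 : (((PZ Y w).filter (fun p => p ∈ B)).card : ℝ) ≤ S.card := by
      exact_mod_cast (card_le_card h1).trans hBc
    have h3 : (0 : ℝ) ≤ 2 / Y := by positivity
    calc (((PZ Y w).filter (fun p => p ∈ B)).card : ℝ) * (2 / Y) ≤ S.card * (2 / Y) :=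
          mul_le_mul_of_nonneg_right h2 h3
      _ = 2 * S.card / Y := by ring
      _ ≤ 1 := by rw [div_le_one (by linarith)]; exact hcard
  rw [Finset.sum_sub_distrib, hS1] at hsum
  have h7 := (abs_le.1 (hP1 ⌊Y⌋₊ (Nat.le_floor hYP) ⌊w⌋₊ (Nat.floor_le_floor hw))).1
  unfold Tc
  linarith

theorem sd_bound (D : ℤ) (hD : ¬ IsSquare D) : ∃ P1 : ℕ, ∀ P : ℕ, P1 ≤ P → ∀ Q : ℕ, P ≤ Q →
    |Sd D P Q| ≤ 1 := by
  obtain ⟨P0, h0⟩ := Pool.Agent.H378R2.QG.sw_tails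
  obtain ⟨X, hX⟩ := eventually_atTop.1
    (Real.tendsto_log_atTop.eventually_ge_atTop (4 * |(D : ℝ)| + 1))
  refine ⟨max P0 ⌈X⌉₊, fun P hP Q hQ => h0 P ((le_max_left _ _).trans hP) Q hQ D hD ?_⟩
  have h1 : X ≤ P := (Nat.le_ceil X).trans (by exact_mod_cast (le_max_right _ _).trans hP)
  have h2 := hX P h1
  have h3 : 1 ≤ Real.log P := by
    have := abs_nonneg (D : ℝ)
    linarith
  calc 4 * |(D : ℝ)| ≤ Real.log P := by linarith
    _ = Real.log P ^ 1 := (pow_one _).symm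
    _ ≤ Real.log P ^ 40 := pow_le_pow_right₀ h3 (by norm_num)

end Pool.Agent.H814.LR
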