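import Pool.Agent.H814.LR.Cov
import Pool.Agent.H814.LR.Surv
import Pool.Agent.H814.LR.Tcl

set_option autoImplicit false
set_option linter.unusedSectionVars false
set_option linter.unusedVariables false

/-! # Long runs of composite values of `n ^ 2 - D` (project LR, helper814) -/

namespace Pool.Agent.H814.LR

open Finset Filter
open Pool.Agent.Y837.SV (red)
open Pool.Agent.H256R2.SC (crt_int)
open Pool.Agent.H300R2.EC (Sd)

open scoped Classical

theorem log_le_half {L : ℝ} (hL : 0 < L) : Real.log L ≤ L / 2 := by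
  have h1 := Real.log_le_sub_one_of_pos (show 0 < L / 2 by linarith)
  rw [Real.log_div hL.ne' (by norm_num)] at h1
  have h2 := Real.log_two_lt_d9
  linarith

theorem runs (D : ℤ) (hD : ¬ IsSquare D) : ∃ c : ℝ, 0 < c ∧ ∃ Z₀ : ℝ, ∀ Z : ℕ, Z₀ ≤ Z → ∀ M : ℤ,
    ∃ x : ℤ, M < x ∧ x ≤ M + Z ∧ ∀ h : ℤ, 1 ≤ h →
      (h : ℝ) ≤ c * Real.log Z * Real.log (Real.log Z) →
      ∃ p : ℕ, p.Prime ∧ (p : ℝ) ≤ (Z : ℝ) ^ (1 / 10 : ℝ) ∧ (p : ℤ) ∣ (x + h) ^ 2 - D := by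
  obtain ⟨P1, hP1⟩ := sd_bound D hD
  obtain ⟨C, hC, hprod⟩ := prod_small D P1 1 (fun Q hQ => hP1 P1 le_rfl Q hQ)
  obtain ⟨c₀, hc₀, X₀, hcov⟩ := mcovX 1 2 (by norm_num)
  obtain ⟨c, hc⟩ : ∃ c : ℝ, c = min 1 (c₀ / (2 * C)) := ⟨_, rfl⟩
  have hc0 : 0 < c := by rw [hc]; exact lt_min one_pos (by positivity)
  have hc1 : c ≤ 1 := by rw [hc]; exact min_le_left _ _
  have hc2 : c * (2 * C) ≤ c₀ := by
    have h1 : c ≤ c₀ / (2 * C) := by rw [hc]; exact min_le_right _ _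
    rwa [le_div_iff₀ (by positivity)] at h1
  obtain ⟨L₀, hL₀⟩ : ∃ L₀ : ℝ, L₀ = 400 + 10 * (P1 + 1) + 4 * |(D : ℝ)| := ⟨_, rfl⟩
  refine ⟨c, hc0, max X₀ (Real.exp L₀), fun Z hZ M => ?_⟩
  obtain ⟨hZa, hZb⟩ := max_le_iff.1 hZ
  have hZ0 : (0 : ℝ) < Z := lt_of_lt_of_le (Real.exp_pos _) hZb
  obtain ⟨L, hL⟩ : ∃ L : ℝ, L = Real.log Z := ⟨_, rfl⟩
  have hLL : L₀ ≤ L := by
    rw [hL, ← Real.log_exp L₀]
    exact Real.log_le_log (Real.exp_pos _) hZb
  have hZr : ∀ s : ℝ, (Z : ℝ) ^ s = Real.exp (s * L) := by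
    intro s
    rw [Real.rpow_def_of_pos hZ0, ← hL, mul_comm]
  have hD0 : (0 : ℝ) ≤ |(D : ℝ)| := abs_nonneg _
  have hP10 : (0 : ℝ) ≤ (P1 : ℝ) := Nat.cast_nonneg _
  have hL400 : 400 ≤ L := by linarith
  have hLP : 10 * ((P1 : ℝ) + 1) ≤ L := by linarith
  have hLD : 4 * |(D : ℝ)| ≤ L := by linarith
  have hL0 : 0 < L := by linarith
  have hl0 : 0 < Real.log L := Real.log_pos (by linarith)
  have hl2 : Real.log L ≤ L / 2 := log_le_half hL0
  -- the small primes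
  obtain ⟨Y, hY⟩ : ∃ Y : ℕ, Y = ⌊L / 10⌋₊ := ⟨_, rfl⟩
  have hY1 : (Y : ℝ) ≤ L / 10 := by rw [hY]; exact Nat.floor_le (by linarith)
  have hY2 : L / 10 < Y + 1 := by rw [hY]; exact Nat.lt_floor_add_one _
  have hYP : P1 ≤ Y := by
    have h1 : (P1 : ℝ) < Y + 1 := by linarith
    have h2 : P1 < Y + 1 := by exact_mod_cast h1
    omega
  have hY3 : 3 ≤ Y := by
    have h1 : (3 : ℝ) < Y + 1 := by linarith
    have h2 : 3 < Y + 1 := by exact_mod_cast h1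
    omega
  have hlogY : Real.log L / 2 ≤ Real.log Y := by
    have h1 : Real.sqrt L ≤ Y := by
      have h2 : Real.sqrt L * Real.sqrt L = L := Real.mul_self_sqrt hL0.le
      have h3 : 20 ≤ Real.sqrt L := by
        apply Real.le_sqrt_of_sq_le
        norm_num
        exact hL400
      nlinarith
    have h2 : Real.log (Real.sqrt L) = Real.log L / 2 := Real.log_sqrt hL0.le
    rw [← h2]
    exact Real.log_le_log (Real.sqrt_pos.2 hL0) h1
  obtain ⟨Ps, hPs⟩ : ∃ Ps : Finset ℕ, Ps = (Ioc P1 Y).filter (fun p : ℕ => p.Prime ∧ p ≠ 2) := ⟨_, rfl⟩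
  have hPsm : ∀ p ∈ Ps, p.Prime ∧ p ≠ 2 ∧ p ≤ Y := by
    intro p hp
    rw [hPs, mem_filter, mem_Ioc] at hp
    exact ⟨hp.2.1, hp.2.2, hp.1.2⟩
  -- the shifts
  obtain ⟨H, hH⟩ : ∃ H : ℕ, H = ⌊c * L * Real.log L⌋₊ := ⟨_, rfl⟩
  have hH1 : (H : ℝ) ≤ c * L * Real.log L := by rw [hH]; exact Nat.floor_le (by positivity)
  have hH2 : (H : ℝ) ≤ L ^ 2 / 2 := by
    have h1 : c * L * Real.log L ≤ 1 * L * (L / 2) := by
      apply mul_le_mul _ hl2 hl0.le (by positivity)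
      exact mul_le_mul_of_nonneg_right hc1 hL0.le
    nlinarith
  obtain ⟨T, hT⟩ : ∃ T : Finset ℤ, T = Icc 1 (H : ℤ) := ⟨_, rfl⟩
  have hTc : T.card = H := by
    rw [hT, Int.card_Icc]
    omega
  obtain ⟨b, hb⟩ := greedy_res D T Ps (fun p hp => ⟨(hPsm p hp).1, (hPsm p hp).2.1⟩)
  obtain ⟨S, hS⟩ : ∃ S : Finset ℤ, S = T.filter (fun h => ∀ p ∈ Ps, ¬ (p : ℤ) ∣ (b p + h) ^ 2 - D) := ⟨_, rfl⟩
  rw [← hS, hTc] at hb
  have hSH : (S.card : ℝ) ≤ H := by
    have : S.card ≤ T.card := by rw [hS]; exact card_filter_le _ _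
    rw [hTc] at this
    exact_mod_cast this
  have hScard : (S.card : ℝ) ≤ c₀ * L := by
    have h1 := hprod Y hY3 hYP
    rw [← hPs] at h1
    have h2 : C / Real.log Y ≤ C / (Real.log L / 2) :=
      div_le_div_of_nonneg_left hC.le (by positivity) hlogY
    calc (S.card : ℝ) ≤ H * ∏ p ∈ Ps, (1 - (1 + (jacobiSym D p : ℝ)) / p) := hb
      _ ≤ H * (C / (Real.log L / 2)) := mul_le_mul_of_nonneg_left (h1.trans h2) (Nat.cast_nonneg _)
      _ ≤ (c * L * Real.log L) * (C / (Real.log L / 2)) :=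
          mul_le_mul_of_nonneg_right hH1 (by positivity)
      _ = c * (2 * C) * L := by field_simp
      _ ≤ c₀ * L := mul_le_mul_of_nonneg_right hc2 hL0.le
  have hSmem : ∀ h ∈ S, (1 : ℝ) ≤ (h : ℝ) ∧ (h : ℝ) ≤ H := by
    intro h hh
    rw [hS, mem_filter, hT, mem_Icc] at hh
    exact ⟨by exact_mod_cast hh.1.1, by exact_mod_cast hh.1.2⟩
  have hdiff : ∀ h ∈ S, ∀ h' ∈ S, |((h - h' : ℤ) : ℝ)| ≤ L ^ 2 / 2 := by
    intro h hh h' hh'
    have h1 := hSmem h hh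
    have h2 := hSmem h' hh'
    push_cast
    rw [abs_le]
    constructor <;> linarith
  have hL4 : 400 * L ≤ L ^ 2 := by nlinarith
  have hdiff4 : ∀ h ∈ S, ∀ h' ∈ S, |(((h - h') ^ 2 - 4 * D : ℤ) : ℝ)| ≤ (L ^ 2) ^ 2 := by
    intro h hh h' hh'
    have h1 := hdiff h hh h' hh'
    push_cast at h1 ⊢
    have h2 : ((h : ℝ) - h') ^ 2 ≤ (L ^ 2 / 2) ^ 2 := by
      rw [← sq_abs]
      exact pow_le_pow_left₀ (abs_nonneg _) h1 2
    have h3 : |((h : ℝ) - h') ^ 2 - 4 * D| ≤ |((h : ℝ) - h') ^ 2| + |4 * (D : ℝ)| := abs_sub _ _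
    rw [abs_of_nonneg (sq_nonneg ((h : ℝ) - h')), abs_mul, abs_of_pos (show (0 : ℝ) < 4 by norm_num)] at h3
    have h4 : L ≤ (L ^ 2) ^ 2 / 2 := by nlinarith
    nlinarith
  -- the modulus
  obtain ⟨P, hP⟩ : ∃ P : ℕ, P = ∏ p ∈ Ps, p := ⟨_, rfl⟩
  have hP0 : 0 < P := by rw [hP]; exact Finset.prod_pos fun p hp => (hPsm p hp).1.pos
  have hPprim : P ≤ primorial Y := by
    rw [hP, primorial]
    apply Finset.prod_le_prod_of_subset_of_one_le'
    · intro p hp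
      rw [mem_filter, Finset.mem_range]
      have := hPsm p hp
      exact ⟨by omega, this.1⟩
    · intro p hp _
      exact (mem_filter.1 hp).2.one_lt.le
  have hP4 : 4 * (P : ℝ) ≤ (Z : ℝ) ^ (1 / 2 : ℝ) := by
    have h1 : P ≤ 4 ^ Y := hPprim.trans (primorial_le_four_pow Y)
    have h2 : (P : ℝ) ≤ (4 : ℝ) ^ Y := by exact_mod_cast h1
    have hlog4 : Real.log 4 ≤ 1.5 := by
      have : (4 : ℝ) = 2 ^ 2 := by norm_num
      rw [this, Real.log_pow]
      have := Real.log_two_lt_d9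
      push_cast
      linarith
    have hlog40 : 0 < Real.log 4 := Real.log_pos (by norm_num)
    have h3 : (4 : ℝ) ^ Y = Real.exp (Y * Real.log 4) := by
      rw [mul_comm, Real.exp_mul, Real.exp_log (by norm_num), Real.rpow_natCast]
    have h4 : (4 : ℝ) = Real.exp (Real.log 4) := (Real.exp_log (by norm_num)).symm
    calc 4 * (P : ℝ) ≤ 4 * Real.exp (Y * Real.log 4) := by rw [← h3]; linarith
      _ = Real.exp (Real.log 4) * Real.exp (Y * Real.log 4) := by rw [← h4]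
      _ = Real.exp (Real.log 4 + Y * Real.log 4) := (Real.exp_add _ _).symm
      _ ≤ Real.exp (1 / 2 * L) := by
          apply Real.exp_le_exp.2
          have h5 : (Y : ℝ) * Real.log 4 ≤ L / 10 * 1.5 :=
            mul_le_mul hY1 hlog4 hlog40.le (by linarith)
          linarith
      _ = _ := (hZr _).symm
  have hYL2 : (Y : ℝ) ≤ L ^ 2 := by linarith
  have hPp : ∀ p : ℕ, p.Prime → p ∣ P → (p : ℝ) ≤ L ^ 2 := by
    intro p hp hpP
    rw [hP, Prime.dvd_finsetProd_iff hp.prime] at hpP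
    obtain ⟨p', hp', hpp'⟩ := hpP
    have h4 : p = p' := (Nat.prime_dvd_prime_iff_eq hp (hPsm p' hp').1).1 hpp'
    have h5 : (p : ℝ) ≤ Y := by
      rw [h4]
      exact_mod_cast (hPsm p' hp').2.2
    linarith
  obtain ⟨b0, hb0⟩ := crt_int Ps (fun p : ℕ => (p : ℤ)) (fun p hp q hq hpq =>
    Nat.isCoprime_iff_coprime.2 ((Nat.coprime_primes (hPsm p hp).1 (hPsm q hq).1).2 hpq)) b
  -- the covering
  obtain ⟨x, hx1, hx2, hx3⟩ := hcov Z hZa {h // h ∈ S} (by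
      rw [Fintype.card_coe, ← hL]
      exact hScard) (fun p => col D S p)
    (by
      intro p hp hp1 hp2 k
      rw [← hL] at hp1
      haveI : Fact p.Prime := ⟨hp⟩
      have hp2' : p ≠ 2 := by
        rintro rfl
        push_cast at hp1
        nlinarith
      have h1 := dens_up D S p hp2' k
      have h2 := (abs_le.1 (jac_bound D p)).2
      have h3 := Pool.Agent.Y837.SV.dens_nonneg 1 (col D S) p k
      have h4 : 0 ≤ (p : ℝ) * Pool.Agent.Y837.SV.dens 1 (col D S) p k := by positivity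
      rw [abs_le]
      constructor
      · have : -1 ≤ (p : ℝ) * Pool.Agent.Y837.SV.dens 1 (col D S) p k - 1 := by linarith
        exact this
      · have : (p : ℝ) * Pool.Agent.Y837.SV.dens 1 (col D S) p k - 1 ≤ 1 := by linarith
        exact this)
    (by
      intro w hw1 hw2 k
      rw [← hL] at hw1 ⊢
      exact tc_low D hD P1 hP1 (L ^ 2) (by nlinarith) (by nlinarith) S
        (fun h hh h' hh' => (hdiff h hh h' hh').trans (by nlinarith [sq_nonneg L])) hdiff4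
        (by linarith) w hw1 k)
    P hP0 hP4 (by rw [← hL]; exact hPp) (fun _ => b0) (fun _ => M)
  refine ⟨x 0, (hx1 0).1, (hx1 0).2, fun h hh1 hh2 => ?_⟩
  have hYZ : (Y : ℝ) ≤ (Z : ℝ) ^ (1 / 10 : ℝ) := by
    rw [hZr]
    have := Real.add_one_le_exp (1 / 10 * L)
    linarith
  have hhH : h ≤ (H : ℤ) := by
    have h1 : (0 : ℤ) ≤ h := by omega
    obtain ⟨n, rfl⟩ := Int.eq_ofNat_of_zero_le h1
    have h2 : (n : ℝ) ≤ c * L * Real.log L := by
      rw [hL]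
      exact_mod_cast hh2
    have h3 : n ≤ H := by rw [hH]; exact Nat.le_floor h2
    exact_mod_cast h3
  by_cases hsm : ∀ p ∈ Ps, ¬ (p : ℤ) ∣ (b p + h) ^ 2 - D
  · have hmem : h ∈ S := by
      rw [hS, mem_filter, hT, mem_Icc]
      exact ⟨⟨hh1, hhH⟩, hsm⟩
    obtain ⟨p, hp1, hp2, hp3, hp4⟩ := hx3 ⟨h, hmem⟩
    refine ⟨p, hp1, hp3, ?_⟩
    have h1 := col_some hp4
    rw [← ZMod.intCast_zmod_eq_zero_iff_dvd]
    push_cast
    rw [sub_eq_zero]
    exact h1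
  · push Not at hsm
    obtain ⟨p, hp1, hp2⟩ := hsm
    refine ⟨p, (hPsm p hp1).1, ?_, ?_⟩
    · have : (p : ℝ) ≤ Y := by exact_mod_cast (hPsm p hp1).2.2
      linarith
    · have h1 : (p : ℤ) ∣ x 0 - b0 := by
        have h2 : (p : ℤ) ∣ (P : ℤ) := by
          rw [hP]
          exact_mod_cast Finset.dvd_prod_of_mem (fun p : ℕ => p) hp1
        exact h2.trans (hx2 0)
      have h3 := hb0 p hp1
      have h4 : (p : ℤ) ∣ (x 0 - b0) + (b0 - b p) := dvd_add h1 h3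
      have e : (x 0 + h) ^ 2 - D = ((x 0 - b0) + (b0 - b p)) * (x 0 + b p + 2 * h) +
          ((b p + h) ^ 2 - D) := by ring
      rw [e]
      exact dvd_add (h4.mul_right _) hp2

end Pool.Agent.H814.LR
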