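import Pool.Agent.Y837.SV.Cov
import Pool.Agent.H704R2.QG.QN1

set_option autoImplicit false
set_option linter.unusedSectionVars false
set_option linter.unusedVariables false

/-! # The colours for the shifts of `n ^ 2 - D` (project LR, helper814) -/

namespace Pool.Agent.H814.LR

open Finset
open Pool.Agent.Y837.SV
open Pool.Agent.H378R2.QG (PZ Tc)

open scoped Classical

/-- the colour of `x` modulo `p`: the only `h ∈ S` with `(x + h) ^ 2 = D`, if there is just one -/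
noncomputable def col (D : ℤ) (S : Finset ℤ) (p : ℕ) (x : Fin 1 → ZMod p) : Option {h // h ∈ S} :=
  if hx : ∃ k : {h // h ∈ S}, ∀ k' : {h // h ∈ S},
      (x 0 + ((k' : ℤ) : ZMod p)) ^ 2 = (D : ZMod p) ↔ k' = k then some hx.choose else none

theorem col_some {D : ℤ} {S : Finset ℤ} {p : ℕ} {x : Fin 1 → ZMod p} {k : {h // h ∈ S}}
    (h : col D S p x = some k) : (x 0 + ((k : ℤ) : ZMod p)) ^ 2 = (D : ZMod p) := by
  unfold col at h
  split_ifs at h with hx
  have h2 : hx.choose = k := Option.some.inj h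
  exact (hx.choose_spec k).2 h2.symm

theorem col_of {D : ℤ} {S : Finset ℤ} {p : ℕ} {x : Fin 1 → ZMod p} {k : {h // h ∈ S}}
    (h : ∀ k' : {h // h ∈ S}, (x 0 + ((k' : ℤ) : ZMod p)) ^ 2 = (D : ZMod p) ↔ k' = k) :
    col D S p x = some k := by
  have hx : ∃ k : {h // h ∈ S}, ∀ k' : {h // h ∈ S},
      (x 0 + ((k' : ℤ) : ZMod p)) ^ 2 = (D : ZMod p) ↔ k' = k := ⟨k, h⟩
  unfold col
  rw [dif_pos hx]
  congr 1
  exact ((hx.choose_spec k).1 ((h k).2 rfl)).symm

/-- the number of the square roots -/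
theorem card_roots (D : ℤ) (p : ℕ) [Fact p.Prime] (hp2 : p ≠ 2) (k : ℤ) :
    (((univ.filter (fun x : Fin 1 → ZMod p => (x 0 + (k : ZMod p)) ^ 2 = (D : ZMod p))).card : ℕ) : ℝ) =
      1 + (jacobiSym D p : ℝ) := by
  have h1 : (univ.filter (fun x : Fin 1 → ZMod p => (x 0 + (k : ZMod p)) ^ 2 = (D : ZMod p))).card =
      ({x : ZMod p | x ^ 2 = (D : ZMod p)}.toFinset).card := by
    refine Finset.card_bij' (fun x _ => x 0 + (k : ZMod p)) (fun y _ => fun _ => y - (k : ZMod p))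
      ?_ ?_ ?_ ?_
    · intro x hx
      rw [mem_filter] at hx
      simpa using hx.2
    · intro y hy
      rw [mem_filter]
      refine ⟨mem_univ _, ?_⟩
      have hy' : y ^ 2 = (D : ZMod p) := by simpa using hy
      simp [hy']
    · intro x _
      funext i
      have : i = 0 := Fin.fin_one_eq_zero i
      rw [this]
      ring
    · intro y _
      ring
  have h2 := legendreSym.card_sqrts p hp2 D
  rw [← h1, jacobiSym.legendreSym.to_jacobiSym] at h2
  have h3 : (((univ.filter (fun x : Fin 1 → ZMod p => (x 0 + (k : ZMod p)) ^ 2 = (D : ZMod p))).card :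
      ℤ) : ℝ) = ((jacobiSym D p + 1 : ℤ) : ℝ) := by rw [h2]
  push_cast at h3
  linarith

theorem jac_bound (D : ℤ) (p : ℕ) : |(jacobiSym D p : ℝ)| ≤ 1 := by
  rcases jacobiSym.trichotomy D p with h | h | h <;> rw [h] <;> norm_num

/-- the density of a colour: upper bound -/
theorem dens_up (D : ℤ) (S : Finset ℤ) (p : ℕ) [Fact p.Prime] (hp2 : p ≠ 2) (k : {h // h ∈ S}) :
    (p : ℝ) * dens 1 (col D S) p k ≤ 1 + (jacobiSym D p : ℝ) := by
  have hp := (Fact.out : p.Prime)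
  have hp0 : (0 : ℝ) < p := by exact_mod_cast hp.pos
  haveI : NeZero p := ⟨hp.ne_zero⟩
  unfold Pool.Agent.Y837.SV.dens
  rw [card_BB_eq, pow_one, mul_div_cancel₀ _ hp0.ne', ← card_roots D p hp2 (k : ℤ)]
  have : (univ.filter (fun x : Fin 1 → ZMod p => col D S p x = some k)).card ≤
      (univ.filter (fun x : Fin 1 → ZMod p => (x 0 + ((k : ℤ) : ZMod p)) ^ 2 = (D : ZMod p))).card := by
    apply card_le_card
    intro x hx
    rw [mem_filter] at hx ⊢
    exact ⟨mem_univ _, col_some hx.2⟩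
  refine (Nat.cast_le (α := ℝ)).2 ?_
  convert this

/-- the density of a colour: lower bound without conflicts -/
theorem dens_low (D : ℤ) (S : Finset ℤ) (p : ℕ) [Fact p.Prime] (hp2 : p ≠ 2) (k : {h // h ∈ S})
    (h1 : ∀ k' ∈ S, k' ≠ (k : ℤ) → ¬ (p : ℤ) ∣ (k : ℤ) - k')
    (h2 : ∀ k' ∈ S, k' ≠ (k : ℤ) → ¬ (p : ℤ) ∣ ((k : ℤ) - k') ^ 2 - 4 * D) :
    1 + (jacobiSym D p : ℝ) ≤ (p : ℝ) * dens 1 (col D S) p k := by
  have hp := (Fact.out : p.Prime)
  have hp0 : (0 : ℝ) < p := by exact_mod_cast hp.pos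
  haveI : NeZero p := ⟨hp.ne_zero⟩
  unfold Pool.Agent.Y837.SV.dens
  rw [card_BB_eq, pow_one, mul_div_cancel₀ _ hp0.ne', ← card_roots D p hp2 (k : ℤ)]
  have : (univ.filter (fun x : Fin 1 → ZMod p => (x 0 + ((k : ℤ) : ZMod p)) ^ 2 = (D : ZMod p))).card ≤
      (univ.filter (fun x : Fin 1 → ZMod p => col D S p x = some k)).card := by
    apply card_le_card
    intro x hx
    rw [mem_filter] at hx ⊢
    refine ⟨mem_univ _, col_of fun k' => ⟨fun hk' => ?_, fun h => ?_⟩⟩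
    · by_contra hne
      have hne' : (k' : ℤ) ≠ (k : ℤ) := fun h => hne (Subtype.ext h)
      have g1 := h1 k' k'.2 hne'
      have g2 := h2 k' k'.2 hne'
      obtain ⟨a, ha⟩ : ∃ a : ZMod p, a = ((k : ℤ) : ZMod p) := ⟨_, rfl⟩
      obtain ⟨b, hb⟩ : ∃ b : ZMod p, b = ((k' : ℤ) : ZMod p) := ⟨_, rfl⟩
      have hx2 := hx.2
      rw [← ha] at hx2
      rw [← hb] at hk'
      have e1 : (a - b) * (2 * x 0 + a + b) = 0 := by linear_combination hx2 - hk'
      have e2 : a - b ≠ 0 := by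
        intro h0
        apply g1
        rw [← ZMod.intCast_zmod_eq_zero_iff_dvd]
        push_cast
        rw [← ha, ← hb]
        exact h0
      have e3 : 2 * x 0 + a + b = 0 := by
        rcases mul_eq_zero.1 e1 with h | h
        · exact absurd h e2
        · exact h
      apply g2
      rw [← ZMod.intCast_zmod_eq_zero_iff_dvd]
      push_cast
      rw [← ha, ← hb]
      linear_combination 4 * hx2 + (-(4 * (x 0 + a)) + (2 * x 0 + a + b)) * e3
    · rw [h]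
      exact hx.2
  refine (Nat.cast_le (α := ℝ)).2 ?_
  convert this

theorem not_sq_four {D : ℤ} (hD : ¬ IsSquare D) (m : ℤ) : m ^ 2 - 4 * D ≠ 0 := by
  intro h
  apply hD
  have h1 : m ^ 2 = 4 * D := by linarith
  have h2 : (2 : ℤ) ∣ m ^ 2 := ⟨2 * D, by rw [h1]; ring⟩
  obtain ⟨t, ht⟩ := Int.prime_two.dvd_of_dvd_pow h2
  refine ⟨t, ?_⟩
  rw [ht] at h1
  nlinarith

/-- there are few primes with conflicts -/
theorem bad_card (D : ℤ) (hD : ¬ IsSquare D) (S : Finset ℤ) (k : ℤ) (B : Finset ℕ) (Y : ℝ) (hY : 0 ≤ Y)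
    (hB : ∀ p ∈ B, p.Prime ∧ Y < (p : ℝ) ∧ ∃ k' ∈ S, (p : ℤ) ∣ (k - k') ^ 2 - 4 * D)
    (hS : ∀ k' ∈ S, |(((k - k') ^ 2 - 4 * D : ℤ) : ℝ)| ≤ Y ^ 2) : B.card ≤ S.card := by
  have h1 : ∀ p : ℕ, ∃ k' : ℤ, p ∈ B → k' ∈ S ∧ (p : ℤ) ∣ (k - k') ^ 2 - 4 * D := by
    intro p
    by_cases hp : p ∈ B
    · obtain ⟨-, -, k', hk', hd⟩ := hB p hp
      exact ⟨k', fun _ => ⟨hk', hd⟩⟩
    · exact ⟨0, fun h => absurd h hp⟩
  choose F hF using h1
  refine Finset.card_le_card_of_injOn F (fun p hp => (hF p hp).1) ?_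
  intro p hp q hq hpq
  by_contra hne
  have hp' := hB p hp
  have hq' := hB q hq
  have d1 := (hF p hp).2
  have d2 := (hF q hq).2
  rw [← hpq] at d2
  have hcop : IsCoprime (p : ℤ) (q : ℤ) :=
    Nat.isCoprime_iff_coprime.2 ((Nat.coprime_primes hp'.1 hq'.1).2 hne)
  have d3 := hcop.mul_dvd d1 d2
  have hne0 := not_sq_four hD (k - F p)
  have h2 := Int.le_of_dvd (abs_pos.2 hne0) ((dvd_abs _ _).2 d3)
  have h3 := hS (F p) (hF p hp).1
  have h4 : ((p : ℝ) * q) ≤ |(((k - F p) ^ 2 - 4 * D : ℤ) : ℝ)| := by exact_mod_cast h2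
  have h5 : Y ^ 2 < (p : ℝ) * q := by
    rw [sq]
    exact mul_lt_mul'' hp'.2.1 hq'.2.1 hY hY
  linarith

end Pool.Agent.H814.LR
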