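import Pool.Agent.Y837.SV.Cov
import Pool.Agent.H814.LR.Main

set_option autoImplicit false
set_option linter.unusedSectionVars false
set_option linter.unusedVariables false

/-! # Long runs without simultaneous primes in linear forms (project LR, helper814) -/

namespace Pool.Agent.H814.LR

open Finset Filter
open Pool.Agent.Y837.SV (red BB mcov card_BB_eq)
open Pool.Agent.H256R2.SC (crt_int)

open scoped Classical

section

variable {k : ℕ} (a b : Fin k → ℤ)

/-- some form vanishes at `c` modulo `q` -/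
def Van (q : ℕ) (c : ZMod q) : Prop := ∃ i, (a i : ZMod q) * c + (b i : ZMod q) = 0

theorem van_card (q : ℕ) [Fact q.Prime] (ha : ∀ i, (a i : ZMod q) ≠ 0)
    (hab : ∀ i j, i ≠ j → (a i : ZMod q) * b j - a j * b i ≠ 0) (h : ℤ) :
    (((univ.filter (fun c : ZMod q => ¬ Van a b q (c + (h : ZMod q)))).card : ℕ) : ℝ) ≤ q - k := by
  have h1 : k ≤ (univ.filter (fun c : ZMod q => Van a b q (c + (h : ZMod q)))).card := by
    have h2 : (univ : Finset (Fin k)).card ≤
        (univ.filter (fun c : ZMod q => Van a b q (c + (h : ZMod q)))).card := by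
      refine Finset.card_le_card_of_injOn (fun i => -(b i : ZMod q) / a i - (h : ZMod q)) ?_ ?_
      · intro i _
        rw [Finset.mem_coe, mem_filter]
        refine ⟨mem_univ _, i, ?_⟩
        have := ha i
        field_simp
        ring
      · intro i _ j _ hij
        by_contra hne
        apply hab i j hne
        simp only at hij
        have h3 : -(b i : ZMod q) / a i = -(b j : ZMod q) / a j := by
          linear_combination hij
        rw [div_eq_div_iff (ha i) (ha j)] at h3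
        linear_combination h3
    simpa using h2
  have h2 := Finset.card_filter_add_card_filter_not (s := (univ : Finset (ZMod q)))
    (fun c : ZMod q => Van a b q (c + (h : ZMod q)))
  rw [card_univ, ZMod.card] at h2
  have h3 : ((univ.filter (fun c : ZMod q => Van a b q (c + (h : ZMod q)))).card : ℝ) +
      ((univ.filter (fun c : ZMod q => ¬ Van a b q (c + (h : ZMod q)))).card : ℝ) = q := by
    exact_mod_cast h2
  have h4 : (k : ℝ) ≤ ((univ.filter (fun c : ZMod q => Van a b q (c + (h : ZMod q)))).card : ℝ) := by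
    exact_mod_cast h1
  linarith

theorem greedy_tup (T : Finset ℤ) (Ps : Finset ℕ) (hPs : ∀ p ∈ Ps, p.Prime ∧ k ≤ p ∧
    (∀ i, (a i : ZMod p) ≠ 0) ∧ ∀ i j, i ≠ j → (a i : ZMod p) * b j - a j * b i ≠ 0) :
    ∃ r : ℕ → ℤ, ((T.filter (fun h : ℤ => ∀ p ∈ Ps, ¬ Van a b p ((r p + h : ℤ) : ZMod p))).card : ℝ) ≤
      T.card * ∏ p ∈ Ps, (1 - (k : ℝ) / p) := by
  induction Ps using Finset.induction_on with
  | empty => exact ⟨0, by simp⟩
  | insert q Ps hq ih =>
    obtain ⟨r, hr⟩ := ih (fun p hp => hPs p (mem_insert_of_mem hp))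
    obtain ⟨hqp, hkq, hqa, hqab⟩ := hPs q (mem_insert_self _ _)
    haveI : Fact q.Prime := ⟨hqp⟩
    have hq0 : (0 : ℝ) < q := by exact_mod_cast hqp.pos
    obtain ⟨T', hT'⟩ : ∃ T' : Finset ℤ,
      T' = T.filter (fun h : ℤ => ∀ p ∈ Ps, ¬ Van a b p ((r p + h : ℤ) : ZMod p)) := ⟨_, rfl⟩
    rw [← hT'] at hr
    have hsum : ∑ c : ZMod q, ((T'.filter (fun h : ℤ => ¬ Van a b q (c + (h : ZMod q)))).card : ℝ) ≤
        ∑ c : ZMod q, (T'.card : ℝ) * (1 - (k : ℝ) / q) := by
      have e1 : ∑ c : ZMod q, ((T'.filter (fun h : ℤ => ¬ Van a b q (c + (h : ZMod q)))).card : ℝ) =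
          ∑ h ∈ T', (((univ.filter (fun c : ZMod q => ¬ Van a b q (c + (h : ZMod q)))).card : ℕ) : ℝ) := by
        simp_rw [Finset.card_filter]
        push_cast
        exact Finset.sum_comm
      rw [e1]
      refine (Finset.sum_le_sum (fun h _ => van_card a b q hqa hqab h)).trans (le_of_eq ?_)
      rw [sum_const, sum_const, card_univ, ZMod.card, nsmul_eq_mul, nsmul_eq_mul]
      field_simp
    obtain ⟨c, -, hc⟩ := Finset.exists_le_of_sum_le (s := (univ : Finset (ZMod q)))
      ⟨0, mem_univ _⟩ hsum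
    refine ⟨Function.update r q (c.val : ℤ), ?_⟩
    have h1 : T.filter (fun h : ℤ => ∀ p ∈ insert q Ps,
        ¬ Van a b p ((Function.update r q (c.val : ℤ) p + h : ℤ) : ZMod p)) =
        T'.filter (fun h : ℤ => ¬ Van a b q (c + (h : ZMod q))) := by
      rw [hT', Finset.filter_filter]
      apply Finset.filter_congr
      intro h _
      have h2 : (¬ Van a b q ((Function.update r q (c.val : ℤ) q + h : ℤ) : ZMod q)) ↔
          ¬ Van a b q (c + (h : ZMod q)) := by
        rw [Function.update_self]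
        push_cast
        rw [ZMod.natCast_zmod_val]
      have h3 : ∀ p ∈ Ps, Function.update r q (c.val : ℤ) p = r p := by
        intro p hp
        apply Function.update_of_ne
        intro h
        rw [h] at hp
        exact hq hp
      rw [Finset.forall_mem_insert, h2]
      constructor
      · rintro ⟨h4, h5⟩
        refine ⟨fun p hp => ?_, h4⟩
        have := h5 p hp
        rwa [h3 p hp] at this
      · rintro ⟨h4, h5⟩
        refine ⟨h5, fun p hp => ?_⟩
        rw [h3 p hp]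
        exact h4 p hp
    rw [h1, Finset.prod_insert hq]
    have h5 : 0 ≤ 1 - (k : ℝ) / q := by
      have h7 : (k : ℝ) ≤ q := by exact_mod_cast hkq
      have h8 : (k : ℝ) / q ≤ 1 := by
        rw [div_le_one hq0]
        exact h7
      linarith
    calc ((T'.filter (fun h : ℤ => ¬ Van a b q (c + (h : ZMod q)))).card : ℝ)
        ≤ (T'.card : ℝ) * (1 - (k : ℝ) / q) := hc
      _ ≤ (T.card * ∏ p ∈ Ps, (1 - (k : ℝ) / p)) * (1 - (k : ℝ) / q) :=
          mul_le_mul_of_nonneg_right hr h5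
      _ = _ := by ring

end

/-- the product over the primes in `(P, Y]`, `k ≤ P` -/
theorem prod_tup (k P : ℕ) (hkP : k ≤ P) : ∃ C : ℝ, 0 < C ∧ ∀ Y : ℕ, 3 ≤ Y → P ≤ Y →
    ∏ p ∈ (Ioc P Y).filter Nat.Prime, (1 - (k : ℝ) / p) ≤ C / (Real.log Y) ^ k := by
  obtain ⟨C, hC⟩ := Pool.Agent.Helper256.KM.mertens_inv
  refine ⟨Real.exp (k * (C + P)), Real.exp_pos _, fun Y hY hPY => ?_⟩
  have hYR : (3 : ℝ) ≤ Y := by exact_mod_cast hY
  have hlogY : 0 < Real.log Y := Real.log_pos (by linarith)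
  obtain ⟨F, hF⟩ : ∃ F : Finset ℕ, F = (Ioc P Y).filter Nat.Prime := ⟨_, rfl⟩
  rw [← hF]
  have hFp : ∀ p ∈ F, p.Prime ∧ P < p := fun p hp => by
    rw [hF, mem_filter, mem_Ioc] at hp
    exact ⟨hp.2, hp.1.1⟩
  have h1 : ∏ p ∈ F, (1 - (k : ℝ) / p) ≤ Real.exp (-∑ p ∈ F, (k : ℝ) / p) := by
    rw [← Finset.sum_neg_distrib, Real.exp_sum]
    refine Finset.prod_le_prod (fun p hp => ?_) (fun p hp => ?_)
    · have h7 : (k : ℝ) ≤ p := by
        have := (hFp p hp).2
        exact_mod_cast (by omega : k ≤ p)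
      have h0 : (0 : ℝ) < p := by exact_mod_cast (hFp p hp).1.pos
      have h8 : (k : ℝ) / p ≤ 1 := by
        rw [div_le_one h0]
        exact h7
      linarith
    · have := Real.add_one_le_exp (-((k : ℝ) / p))
      linarith
  have h2 : ∑ p ∈ F, (k : ℝ) / p = k * ∑ p ∈ F, (1 : ℝ) / p := by
    rw [Finset.mul_sum]
    refine Finset.sum_congr rfl fun p _ => ?_
    ring
  have h4 := (abs_le.1 (hC Y hY)).1
  have h5 : ∑ p ∈ (Icc 1 Y).filter Nat.Prime, (1 : ℝ) / p ≤ ∑ p ∈ F, (1 : ℝ) / p + P := by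
    have e1 : (Icc 1 Y).filter Nat.Prime ⊆ F ∪ Icc 1 P := by
      intro p hp
      rw [mem_filter, mem_Icc] at hp
      simp only [hF, mem_union, mem_filter, mem_Ioc, mem_Icc]
      by_cases h : p ≤ P
      · exact Or.inr ⟨hp.1.1, h⟩
      · exact Or.inl ⟨⟨by omega, hp.1.2⟩, hp.2⟩
    have hnn : ∀ p : ℕ, (0 : ℝ) ≤ 1 / p := fun p => by positivity
    have e2 : ∑ p ∈ (Icc 1 Y).filter Nat.Prime, (1 : ℝ) / p ≤ ∑ p ∈ F ∪ Icc 1 P, (1 : ℝ) / p :=
      Finset.sum_le_sum_of_subset_of_nonneg e1 (fun p _ _ => hnn p)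
    have e4 : ∑ p ∈ F ∪ Icc 1 P, (1 : ℝ) / p ≤ ∑ p ∈ F, (1 : ℝ) / p + ∑ p ∈ Icc 1 P, (1 : ℝ) / p := by
      rw [← Finset.sum_union_inter]
      have := Finset.sum_nonneg (s := F ∩ Icc 1 P) (fun p _ => hnn p)
      linarith
    have e5 : ∑ p ∈ Icc 1 P, (1 : ℝ) / p ≤ P := by
      have : ∑ p ∈ Icc 1 P, (1 : ℝ) / p ≤ ∑ p ∈ Icc 1 P, (1 : ℝ) := by
        refine Finset.sum_le_sum fun p hp => ?_
        rw [mem_Icc] at hp
        have : (1 : ℝ) ≤ p := by exact_mod_cast hp.1
        rw [div_le_one (by linarith)]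
        exact this
      simpa using this
    linarith
  refine h1.trans ?_
  rw [h2]
  have h6 : Real.exp (k * (C + P)) / (Real.log Y) ^ k =
      Real.exp (k * (C + P) - k * Real.log (Real.log Y)) := by
    rw [Real.exp_sub, Real.exp_nat_mul (Real.log (Real.log Y)), Real.exp_log hlogY]
  rw [h6]
  apply Real.exp_le_exp.2
  have h7 : (0 : ℝ) ≤ k := Nat.cast_nonneg _
  nlinarith

end Pool.Agent.H814.LR
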