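import Pool.Agent.H814.LR.Tup

set_option autoImplicit false
set_option linter.unusedSectionVars false
set_option linter.unusedVariables false

/-! # Long runs without simultaneous primes in linear forms: main theorem (project LR, helper814) -/

namespace Pool.Agent.H814.LR

open Finset Filter
open Pool.Agent.Y837.SV (red BB mcov card_BB_eq)
open Pool.Agent.H256R2.SC (crt_int)

open scoped Classical

/-- the colour: an `h ∈ S` with `a (x + h) + b = 0` -/
noncomputable def lcol (a b : ℤ) (S : Finset ℤ) (p : ℕ) (x : Fin 1 → ZMod p) : Option {h // h ∈ S} :=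
  if hx : ∃ k : {h // h ∈ S}, (a : ZMod p) * (x 0 + ((k : ℤ) : ZMod p)) + (b : ZMod p) = 0 then
    some hx.choose else none

theorem lcol_some {a b : ℤ} {S : Finset ℤ} {p : ℕ} {x : Fin 1 → ZMod p} {k : {h // h ∈ S}}
    (h : lcol a b S p x = some k) : (a : ZMod p) * (x 0 + ((k : ℤ) : ZMod p)) + (b : ZMod p) = 0 := by
  unfold lcol at h
  split_ifs at h with hx
  have h2 : hx.choose = k := Option.some.inj h
  rw [← h2]
  exact hx.choose_spec

theorem lcol_dens (a b : ℤ) (S : Finset ℤ) (p : ℕ) [Fact p.Prime] (ha : (a : ZMod p) ≠ 0)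
    (hS : ∀ h ∈ S, ∀ h' ∈ S, h ≠ h' → ¬ (p : ℤ) ∣ h - h') (k : {h // h ∈ S}) :
    (p : ℝ) * Pool.Agent.Y837.SV.dens 1 (lcol a b S) p k = 1 := by
  have hp := (Fact.out : p.Prime)
  have hp0 : (0 : ℝ) < p := by exact_mod_cast hp.pos
  haveI : NeZero p := ⟨hp.ne_zero⟩
  unfold Pool.Agent.Y837.SV.dens
  rw [card_BB_eq, pow_one, mul_div_cancel₀ _ hp0.ne']
  have h1 : (univ.filter (fun x : Fin 1 → ZMod p => lcol a b S p x = some k)) =
      {fun _ => -(b : ZMod p) / a - ((k : ℤ) : ZMod p)} := by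
    ext x
    rw [mem_filter, mem_singleton]
    constructor
    · rintro ⟨-, hx⟩
      have h2 := lcol_some hx
      funext i
      have hi : i = 0 := Fin.fin_one_eq_zero i
      rw [hi]
      field_simp
      linear_combination h2
    · rintro rfl
      refine ⟨mem_univ _, ?_⟩
      have hx : ∃ k' : {h // h ∈ S}, (a : ZMod p) *
          ((fun _ : Fin 1 => -(b : ZMod p) / a - ((k : ℤ) : ZMod p)) 0 + ((k' : ℤ) : ZMod p)) +
            (b : ZMod p) = 0 := by
        refine ⟨k, ?_⟩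
        simp only
        field_simp
        ring
      unfold lcol
      rw [dif_pos hx]
      congr 1
      have h3 := hx.choose_spec
      simp only at h3
      by_contra hne
      have hne' : ((hx.choose : {h // h ∈ S}) : ℤ) ≠ (k : ℤ) := fun h => hne (Subtype.ext h)
      apply hS _ hx.choose.2 _ k.2 hne'
      rw [← ZMod.intCast_zmod_eq_zero_iff_dvd]
      push_cast
      have h4 : (a : ZMod p) * ((((hx.choose : {h // h ∈ S}) : ℤ) : ZMod p) - ((k : ℤ) : ZMod p)) = 0 := by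
        have h5 : (a : ZMod p) * (-(b : ZMod p) / a) = -b := by field_simp
        linear_combination h3 - h5
      rcases mul_eq_zero.1 h4 with h | h
      · exact absurd h ha
      · exact h
  have h2 : (univ.filter (fun x : Fin 1 → ZMod p => lcol a b S p x = some k)).card = 1 := by
    rw [h1, card_singleton]
  have h3 : (((univ.filter (fun x : Fin 1 → ZMod p => lcol a b S p x = some k)).card : ℕ) : ℝ) = 1 := by
    rw [h2]
    norm_num
  rw [← h3]
  congr

/-- an integer that is not zero is not divisible by a larger prime -/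
theorem cast_ne {z : ℤ} (hz : z ≠ 0) {p B : ℕ} (hB : z.natAbs ≤ B) (hp : B < p) : (z : ZMod p) ≠ 0 := by
  intro h
  have h1 := (ZMod.intCast_zmod_eq_zero_iff_dvd z p).1 h
  have h2 := Int.natAbs_dvd_natAbs.2 h1
  rw [Int.natAbs_natCast] at h2
  have := Nat.le_of_dvd (Int.natAbs_pos.2 hz) h2
  omega

theorem tuples {s : ℕ} (a b : Fin (s + 1) → ℤ) (ha : ∀ i, a i ≠ 0)
    (hab : ∀ i j, i ≠ j → a i * b j ≠ a j * b i) :
    ∃ c : ℝ, 0 < c ∧ ∃ Z₀ : ℝ, ∀ Z : ℕ, Z₀ ≤ Z → ∀ M : ℤ, ∃ x : ℤ, M < x ∧ x ≤ M + Z ∧ ∀ h : ℤ, 1 ≤ h →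
      (h : ℝ) ≤ c * Real.log Z * Real.log (Real.log Z) ^ (s + 1) →
      ∃ i, ∃ p : ℕ, p.Prime ∧ (p : ℝ) ≤ (Z : ℝ) ^ (1 / 10 : ℝ) ∧ (p : ℤ) ∣ a i * (x + h) + b i := by
  obtain ⟨P1, hP1⟩ : ∃ P1 : ℕ, P1 = s + 1 + ∑ i, (a i).natAbs +
      ∑ i, ∑ j, (a i * b j - a j * b i).natAbs := ⟨_, rfl⟩
  have hPa : ∀ i, (a i).natAbs ≤ P1 := by
    intro i
    have h1 : (a i).natAbs ≤ ∑ i, (a i).natAbs :=
      Finset.single_le_sum (f := fun i => (a i).natAbs) (fun _ _ => Nat.zero_le _) (mem_univ i)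
    omega
  have hPab : ∀ i j, (a i * b j - a j * b i).natAbs ≤ P1 := by
    intro i j
    have h1 : (a i * b j - a j * b i).natAbs ≤ ∑ j, (a i * b j - a j * b i).natAbs :=
      Finset.single_le_sum (f := fun j => (a i * b j - a j * b i).natAbs) (fun _ _ => Nat.zero_le _)
        (mem_univ j)
    have h2 : ∑ j, (a i * b j - a j * b i).natAbs ≤ ∑ i, ∑ j, (a i * b j - a j * b i).natAbs :=
      Finset.single_le_sum (f := fun i => ∑ j, (a i * b j - a j * b i).natAbs)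
        (fun _ _ => Nat.zero_le _) (mem_univ i)
    omega
  have hsP : s + 1 ≤ P1 := by omega
  have hgood : ∀ p : ℕ, P1 < p → (∀ i, (a i : ZMod p) ≠ 0) ∧
      ∀ i j, i ≠ j → (a i : ZMod p) * b j - a j * b i ≠ 0 := by
    intro p hp
    refine ⟨fun i => cast_ne (ha i) (hPa i) hp, fun i j hij => ?_⟩
    have h1 := cast_ne (sub_ne_zero.2 (hab i j hij)) (hPab i j) hp
    push_cast at h1
    exact h1
  obtain ⟨C, hC, hprod⟩ := prod_tup (s + 1) P1 hsP
  obtain ⟨c₀, hc₀, X₀, hcov⟩ := mcov 1 0 1 le_rfl one_pos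
  obtain ⟨c, hc⟩ : ∃ c : ℝ, c = min 1 (c₀ / (2 ^ (s + 1) * C)) := ⟨_, rfl⟩
  have hc0 : 0 < c := by rw [hc]; exact lt_min one_pos (by positivity)
  have hc1 : c ≤ 1 := by rw [hc]; exact min_le_left _ _
  have hc2 : c * (2 ^ (s + 1) * C) ≤ c₀ := by
    have h1 : c ≤ c₀ / (2 ^ (s + 1) * C) := by rw [hc]; exact min_le_right _ _
    rwa [le_div_iff₀ (by positivity)] at h1
  obtain ⟨L₁, hL₁⟩ := eventually_atTop.1
    ((Real.isLittleO_pow_log_id_atTop (n := s + 1)).def (show (0 : ℝ) < 1 / 2 by norm_num))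
  obtain ⟨L₀, hL₀⟩ : ∃ L₀ : ℝ, L₀ = max L₁ (400 + 10 * (P1 + 1)) := ⟨_, rfl⟩
  refine ⟨c, hc0, max X₀ (Real.exp L₀), fun Z hZ M => ?_⟩
  obtain ⟨hZa, hZb⟩ := max_le_iff.1 hZ
  have hZ0 : (0 : ℝ) < Z := lt_of_lt_of_le (Real.exp_pos _) hZb
  obtain ⟨L, hL⟩ : ∃ L : ℝ, L = Real.log Z := ⟨_, rfl⟩
  have hLL' : L₀ ≤ L := by
    rw [hL, ← Real.log_exp L₀]
    exact Real.log_le_log (Real.exp_pos _) hZb
  have hLL1 : L₁ ≤ L := by rw [hL₀] at hLL'; exact (le_max_left _ _).trans hLL'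
  have hLL : 400 + 10 * ((P1 : ℝ) + 1) ≤ L := by rw [hL₀] at hLL'; exact (le_max_right _ _).trans hLL'
  have hZr : ∀ s : ℝ, (Z : ℝ) ^ s = Real.exp (s * L) := by
    intro s
    rw [Real.rpow_def_of_pos hZ0, ← hL, mul_comm]
  have hP10 : (0 : ℝ) ≤ (P1 : ℝ) := Nat.cast_nonneg _
  have hL400 : 400 ≤ L := by linarith
  have hLP : 10 * ((P1 : ℝ) + 1) ≤ L := by linarith
  have hL0 : 0 < L := by linarith
  have hl0 : 0 < Real.log L := Real.log_pos (by linarith)
  have hl2 : Real.log L ^ (s + 1) ≤ L / 2 := by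
    have h1 := hL₁ L hLL1
    rw [Real.norm_eq_abs, abs_of_nonneg (by positivity), id, Real.norm_eq_abs, abs_of_pos hL0] at h1
    linarith
  -- the small primes
  obtain ⟨Y, hY⟩ : ∃ Y : ℕ, Y = ⌊L / 10⌋₊ := ⟨_, rfl⟩
  have hY1 : (Y : ℝ) ≤ L / 10 := by rw [hY]; exact Nat.floor_le (by linarith)
  have hY2 : L / 10 < Y + 1 := by rw [hY]; exact Nat.lt_floor_add_one _
  have hYP : P1 ≤ Y := by
    have h1 : (P1 : ℝ) < Y + 1 := by linarith
    have h2 : P1 < Y + 1 := by exact_mod_cast h1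
    omega
  have hY3 : 3 ≤ Y := by
    have h1 : (3 : ℝ) < Y + 1 := by linarith
    have h2 : 3 < Y + 1 := by exact_mod_cast h1
    omega
  have hlogY : Real.log L / 2 ≤ Real.log Y := by
    have h1 : Real.sqrt L ≤ Y := by
      have h2 : Real.sqrt L * Real.sqrt L = L := Real.mul_self_sqrt hL0.le
      have h3 : 20 ≤ Real.sqrt L := by
        apply Real.le_sqrt_of_sq_le
        norm_num
        exact hL400
      nlinarith
    have h2 : Real.log (Real.sqrt L) = Real.log L / 2 := Real.log_sqrt hL0.le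
    rw [← h2]
    exact Real.log_le_log (Real.sqrt_pos.2 hL0) h1
  obtain ⟨Ps, hPs⟩ : ∃ Ps : Finset ℕ, Ps = (Ioc P1 Y).filter Nat.Prime := ⟨_, rfl⟩
  have hPsm : ∀ p ∈ Ps, p.Prime ∧ P1 < p ∧ p ≤ Y := by
    intro p hp
    rw [hPs, mem_filter, mem_Ioc] at hp
    exact ⟨hp.2, hp.1.1, hp.1.2⟩
  -- the shifts
  obtain ⟨H, hH⟩ : ∃ H : ℕ, H = ⌊c * L * Real.log L ^ (s + 1)⌋₊ := ⟨_, rfl⟩
  have hH1 : (H : ℝ) ≤ c * L * Real.log L ^ (s + 1) := by rw [hH]; exact Nat.floor_le (by positivity)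
  have hH2 : (H : ℝ) ≤ L ^ 2 / 2 := by
    have h1 : c * L * Real.log L ^ (s + 1) ≤ 1 * L * (L / 2) := by
      apply mul_le_mul _ hl2 (by positivity) (by positivity)
      exact mul_le_mul_of_nonneg_right hc1 hL0.le
    have h2 : (1 : ℝ) * L * (L / 2) = L ^ 2 / 2 := by ring
    linarith
  obtain ⟨T, hT⟩ : ∃ T : Finset ℤ, T = Icc 1 (H : ℤ) := ⟨_, rfl⟩
  have hTc : T.card = H := by
    rw [hT, Int.card_Icc]
    omega
  obtain ⟨r, hr⟩ := greedy_tup a b T Ps (fun p hp => ⟨(hPsm p hp).1, by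
    have := (hPsm p hp).2.1
    omega, (hgood p (hPsm p hp).2.1).1, (hgood p (hPsm p hp).2.1).2⟩)
  obtain ⟨S, hS⟩ : ∃ S : Finset ℤ,
    S = T.filter (fun h : ℤ => ∀ p ∈ Ps, ¬ Van a b p ((r p + h : ℤ) : ZMod p)) := ⟨_, rfl⟩
  rw [← hS, hTc] at hr
  have hScard : (S.card : ℝ) ≤ c₀ * L := by
    have h1 := hprod Y hY3 hYP
    rw [← hPs] at h1
    have h2 : C / Real.log Y ^ (s + 1) ≤ C / (Real.log L / 2) ^ (s + 1) :=
      div_le_div_of_nonneg_left hC.le (by positivity) (pow_le_pow_left₀ (by positivity) hlogY _)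
    calc (S.card : ℝ) ≤ H * ∏ p ∈ Ps, (1 - ((s + 1 : ℕ) : ℝ) / p) := hr
      _ ≤ H * (C / (Real.log L / 2) ^ (s + 1)) :=
          mul_le_mul_of_nonneg_left (h1.trans h2) (Nat.cast_nonneg _)
      _ ≤ (c * L * Real.log L ^ (s + 1)) * (C / (Real.log L / 2) ^ (s + 1)) :=
          mul_le_mul_of_nonneg_right hH1 (by positivity)
      _ = c * (2 ^ (s + 1) * C) * L := by
          rw [div_pow]
          field_simp
      _ ≤ c₀ * L := mul_le_mul_of_nonneg_right hc2 hL0.le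
  have hSmem : ∀ h ∈ S, 1 ≤ h ∧ h ≤ (H : ℤ) := by
    intro h hh
    rw [hS, mem_filter, hT, mem_Icc] at hh
    exact hh.1
  -- the modulus
  obtain ⟨P, hP⟩ : ∃ P : ℕ, P = ∏ p ∈ Ps, p := ⟨_, rfl⟩
  have hP0 : 0 < P := by rw [hP]; exact Finset.prod_pos fun p hp => (hPsm p hp).1.pos
  have hPprim : P ≤ primorial Y := by
    rw [hP, primorial]
    apply Finset.prod_le_prod_of_subset_of_one_le'
    · intro p hp
      rw [mem_filter, Finset.mem_range]
      have := hPsm p hp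
      exact ⟨by omega, this.1⟩
    · intro p hp _
      exact (mem_filter.1 hp).2.one_lt.le
  have hP4 : 4 * (P : ℝ) ≤ (Z : ℝ) ^ (1 / 2 : ℝ) := by
    have h1 : P ≤ 4 ^ Y := hPprim.trans (primorial_le_four_pow Y)
    have h2 : (P : ℝ) ≤ (4 : ℝ) ^ Y := by exact_mod_cast h1
    have hlog4 : Real.log 4 ≤ 1.5 := by
      have : (4 : ℝ) = 2 ^ 2 := by norm_num
      rw [this, Real.log_pow]
      have := Real.log_two_lt_d9
      push_cast
      linarith
    have hlog40 : 0 < Real.log 4 := Real.log_pos (by norm_num)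
    have h3 : (4 : ℝ) ^ Y = Real.exp (Y * Real.log 4) := by
      rw [mul_comm, Real.exp_mul, Real.exp_log (by norm_num), Real.rpow_natCast]
    have h4 : (4 : ℝ) = Real.exp (Real.log 4) := (Real.exp_log (by norm_num)).symm
    calc 4 * (P : ℝ) ≤ 4 * Real.exp (Y * Real.log 4) := by rw [← h3]; linarith
      _ = Real.exp (Real.log 4) * Real.exp (Y * Real.log 4) := by rw [← h4]
      _ = Real.exp (Real.log 4 + Y * Real.log 4) := (Real.exp_add _ _).symm
      _ ≤ Real.exp (1 / 2 * L) := by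
          apply Real.exp_le_exp.2
          have h5 : (Y : ℝ) * Real.log 4 ≤ L / 10 * 1.5 :=
            mul_le_mul hY1 hlog4 hlog40.le (by linarith)
          linarith
      _ = _ := (hZr _).symm
  have hLL2 : L ≤ L ^ 2 := by nlinarith
  have hPp : ∀ p : ℕ, p.Prime → p ∣ P → (p : ℝ) ≤ L ^ 2 := by
    intro p hp hpP
    rw [hP, Prime.dvd_finsetProd_iff hp.prime] at hpP
    obtain ⟨p', hp', hpp'⟩ := hpP
    have h4 : p = p' := (Nat.prime_dvd_prime_iff_eq hp (hPsm p' hp').1).1 hpp'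
    have h5 : (p : ℝ) ≤ Y := by
      rw [h4]
      exact_mod_cast (hPsm p' hp').2.2
    linarith
  obtain ⟨b0, hb0⟩ := crt_int Ps (fun p : ℕ => (p : ℤ)) (fun p hp q hq hpq =>
    Nat.isCoprime_iff_coprime.2 ((Nat.coprime_primes (hPsm p hp).1 (hPsm q hq).1).2 hpq)) r
  -- the covering
  obtain ⟨x, hx1, hx2, hx3⟩ := hcov Z hZa {h // h ∈ S} (by
      rw [Fintype.card_coe, ← hL]
      exact hScard) (fun p => lcol (a 0) (b 0) S p)
    (by
      intro p hp hp1 hp2 k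
      rw [← hL] at hp1
      haveI : Fact p.Prime := ⟨hp⟩
      have hpP1 : P1 < p := by
        have h1 : (P1 : ℝ) < p := by linarith
        exact_mod_cast h1
      have h1 := lcol_dens (a 0) (b 0) S p ((hgood p hpP1).1 0) (by
        intro h hh h' hh' hne hd
        have h2 := Int.le_of_dvd (abs_pos.2 (sub_ne_zero.2 hne)) ((dvd_abs _ _).2 hd)
        have h3 := hSmem h hh
        have h4 := hSmem h' hh'
        have h5 : |h - h'| ≤ (H : ℤ) := by
          rw [abs_le]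
          constructor <;> omega
        have h6 : (p : ℤ) ≤ H := h2.trans h5
        have h7 : (p : ℝ) ≤ H := by exact_mod_cast h6
        nlinarith) k
      have h2 : (p : ℝ) * Pool.Agent.Y837.SV.dens 1 (lcol (a 0) (b 0) S) p k - 1 = 0 := by
        rw [h1, sub_self]
      rw [h2, abs_zero, zero_mul])
    P hP0 hP4 (by rw [← hL]; exact hPp) (fun _ => b0) (fun _ => M)
  refine ⟨x 0, (hx1 0).1, (hx1 0).2, fun h hh1 hh2 => ?_⟩
  have hYZ : (Y : ℝ) ≤ (Z : ℝ) ^ (1 / 10 : ℝ) := by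
    rw [hZr]
    have := Real.add_one_le_exp (1 / 10 * L)
    linarith
  have hhH : h ≤ (H : ℤ) := by
    have h1 : (0 : ℤ) ≤ h := by omega
    obtain ⟨n, rfl⟩ := Int.eq_ofNat_of_zero_le h1
    have h2 : (n : ℝ) ≤ c * L * Real.log L ^ (s + 1) := by
      rw [hL]
      exact_mod_cast hh2
    have h3 : n ≤ H := by rw [hH]; exact Nat.le_floor h2
    exact_mod_cast h3
  by_cases hsm : ∀ p ∈ Ps, ¬ Van a b p ((r p + h : ℤ) : ZMod p)
  · have hmem : h ∈ S := by
      rw [hS, mem_filter, hT, mem_Icc]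
      exact ⟨⟨hh1, hhH⟩, hsm⟩
    obtain ⟨p, hp1, hp2, hp3, hp4⟩ := hx3 ⟨h, hmem⟩
    refine ⟨0, p, hp1, hp3, ?_⟩
    have h1 := lcol_some hp4
    rw [← ZMod.intCast_zmod_eq_zero_iff_dvd]
    push_cast
    exact h1
  · push Not at hsm
    obtain ⟨p, hp1, i, hi⟩ := hsm
    refine ⟨i, p, (hPsm p hp1).1, ?_, ?_⟩
    · have : (p : ℝ) ≤ Y := by exact_mod_cast (hPsm p hp1).2.2
      linarith
    · have h1 : (p : ℤ) ∣ x 0 - b0 := by
        have h2 : (p : ℤ) ∣ (P : ℤ) := by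
          rw [hP]
          exact_mod_cast Finset.dvd_prod_of_mem (fun p : ℕ => p) hp1
        exact h2.trans (hx2 0)
      have h4 : (p : ℤ) ∣ (x 0 - b0) + (b0 - r p) := dvd_add h1 (hb0 p hp1)
      have h5 : (p : ℤ) ∣ a i * (r p + h) + b i := by
        rw [← ZMod.intCast_zmod_eq_zero_iff_dvd]
        push_cast at hi ⊢
        exact hi
      have e : a i * (x 0 + h) + b i = a i * ((x 0 - b0) + (b0 - r p)) + (a i * (r p + h) + b i) := by
        ring
      rw [e]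
      exact dvd_add (Dvd.dvd.mul_left h4 _) h5

end Pool.Agent.H814.LR
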